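import Pool.Agent.H579R3.RH.Defs
import Pool.Agent.H673R2.OneTT.Sep5

/-!
The sets used in the proof. `KA A` (file `Pool/Agent/H673R2/OneTT/Kset.lean`) is a complete set
for `NP` relative to `A`; `Hs 5 A` (file `Sep2.lean` there) is a random set in `NP` relative
to `A`.
-/

namespace Pool.Agent.H579R3.RH

open MeasureTheory Pool.Agent.NPC Pool.Agent.H628R3.RO Pool.Agent.H673R2.OneOne
open Pool.Agent.H673R2.OneTT (KA Hs zz bK)

/-- the length of the keys of the strings of length `m` -/
noncomputable def sK : Polynomial ℕ := bK + 5 * Polynomial.X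

theorem sK_eval (m : ℕ) : sK.eval m = bK.eval m + 5 * m := by
  unfold sK
  simp only [Polynomial.eval_add, Polynomial.eval_mul, Polynomial.eval_X, Polynomial.eval_ofNat]

/-- `u` is a key of `y` -/
def Key (R : Oracle) (y u : List Bool) : Prop :=
  u.length = sK.eval y.length ∧ Hit ((y.length + u.length) / 2) (6 + y.length, y ++ u) R

/-- the set in `NP` which is high, but not complete: membership in the complete set, for those
who know a key -/
def BB (R : Oracle) : Set (List Bool) :=
  {v | Key R (unpair v).1 (unpair v).2 ∧ (unpair v).1 ∈ KA R}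

/-- the tally set -/
def TT (R : Oracle) : Set (List Bool) := {x | x = zz x.length ∧ x ∈ Hs 5 R}

end Pool.Agent.H579R3.RH
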