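import Pool.Agent.H628R3.RO.Defs

/-!
# The low and high hierarchies relative to an oracle

An oracle `R` is fixed. All classes are taken relative to `R`; a further oracle set `A` is given
together with `R` (the join of both).
-/

namespace Pool.Agent.H579R3.RH

open Pool.Agent.NPC Pool.Agent.H628R3.RO

open Classical in
/-- A set of bit strings as an oracle (its characteristic function). -/
noncomputable def chr (C : Set (List Bool)) : Oracle := fun x => decide (x ∈ C)

open Classical in
/-- The oracle which answers questions to `R` (first bit `0`) and to the set `A` (first bit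
`1`). -/
noncomputable def join (R : Oracle) (A : Set (List Bool)) : Oracle
  | [] => false
  | false :: y => R y
  | true :: y => decide (y ∈ A)

/-- `P(X)`: polynomial time relative to the oracle `X`. -/
def IsP (X : Oracle) (L : Set (List Bool)) : Prop :=
  ∃ F : List Bool → List Bool, IsFP X F ∧ ∀ x, x ∈ L ↔ F x = [true]

/-- `Σ_k(X)`: `Σ_0(X) = P(X)` and `Σ_{k+1}(X) = NP(Σ_k(X))`. -/
def Sigma (X : Oracle) : ℕ → Set (List Bool) → Prop
  | 0, L => IsP X L
  | k + 1, L => ∃ C, Sigma X k C ∧ IsNP (chr C) L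

/-- `Δ_n(X)` for `n ≥ 1`: `Δ_{k+1}(X) = P(Σ_k(X))`. (The value for `n = 0` is not used.) -/
def Delta (X : Oracle) : ℕ → Set (List Bool) → Prop
  | 0, L => IsP X L
  | k + 1, L => ∃ C, Sigma X k C ∧ IsP (chr C) L

/-- `A` is in the level `L_k` of the low hierarchy relative to `R`: `A` is in `NP(R)` and
`Σ_k(R ⊕ A) ⊆ Σ_k(R)`. -/
def Low (R : Oracle) (k : ℕ) (A : Set (List Bool)) : Prop :=
  IsNP R A ∧ ∀ L, Sigma (join R A) k L → Sigma R k L

/-- `A` is in the level `H_k` of the high hierarchy relative to `R`: `A` is in `NP(R)` and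
`Σ_{k+1}(R) ⊆ Σ_k(R ⊕ A)`. -/
def High (R : Oracle) (k : ℕ) (A : Set (List Bool)) : Prop :=
  IsNP R A ∧ ∀ L, Sigma R (k + 1) L → Sigma (join R A) k L

/-- `A` is in the level `L̂_n` of the refined low hierarchy relative to `R`: `A` is in `NP(R)` and
`Δ_n(R ⊕ A) ⊆ Δ_n(R)`. -/
def LowHat (R : Oracle) (n : ℕ) (A : Set (List Bool)) : Prop :=
  IsNP R A ∧ ∀ L, Delta (join R A) n L → Delta R n L

/-- `A` is in the level `Ĥ_n` of the refined high hierarchy relative to `R`: `A` is in `NP(R)` and
`Δ_{n+1}(R) ⊆ Δ_n(R ⊕ A)`. -/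
def HighHat (R : Oracle) (n : ℕ) (A : Set (List Bool)) : Prop :=
  IsNP R A ∧ ∀ L, Delta R (n + 1) L → Delta (join R A) n L

end Pool.Agent.H579R3.RH
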