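import Pool.Agent.H579R3.RH.Stubs

namespace Pool.Agent.H579R3.RH

open MeasureTheory Pool.Agent.NPC Pool.Agent.H628R3.RO Pool.Agent.H673R2.OneOne
open Pool.Agent.H673R2.OneTT (KA Hs zz bK)

theorem isNP_subst {R : Oracle} {D L : Set (List Bool)} (hL : IsNP (chr D) L) (hD : IsP R D) :
    IsNP R L := by
  obtain ⟨V, p, hV, h⟩ := hL
  exact ⟨V, p, isFP_subst hV hD, h⟩

theorem isP_subst {R : Oracle} {D L : Set (List Bool)} (hL : IsP (chr D) L) (hD : IsP R D) :
    IsP R L := by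
  obtain ⟨F, hF, h⟩ := hL
  exact ⟨F, isFP_subst hF hD, h⟩

theorem isP_self (X : Oracle) : IsP X {x | X x = true} := by
  refine ⟨fun x => [X x], ?_, fun x => ?_⟩
  · exact IsFP.tt (A := X) (Q := fun x => [x]) (H := fun p => p.2)
      (Poly.cons Poly.id (NPC.Poly.const [])) (Poly.snd Poly.id)
  · simp

theorem chr_self (X : Oracle) : chr {x | X x = true} = X := by
  funext x
  unfold chr
  cases h : X x <;> simp [h]

theorem sigma_one {X : Oracle} {L : Set (List Bool)} : Sigma X 1 L ↔ IsNP X L := by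
  constructor
  · rintro ⟨D, hD, hL⟩
    exact isNP_subst hL hD
  · intro h
    refine ⟨{x | X x = true}, isP_self X, ?_⟩
    rw [chr_self]
    exact h

theorem delta_one {X : Oracle} {L : Set (List Bool)} : Delta X 1 L ↔ IsP X L := by
  constructor
  · rintro ⟨D, hD, hL⟩
    exact isP_subst hL hD
  · intro h
    refine ⟨{x | X x = true}, isP_self X, ?_⟩
    rw [chr_self]
    exact h

theorem isP_chr (C : Set (List Bool)) : IsP (chr C) C := by
  have h := isP_self (chr C)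
  have h1 : {x | chr C x = true} = C := by
    ext x
    simp [chr]
  rwa [h1] at h

theorem high_BB {R : Oracle} (hR : ∃ n0 : ℕ, ∀ y : List Bool, n0 ≤ y.length → ∃ u, Key R y u) :
    High R 1 (BB R) := by
  refine ⟨isNP_BB R, fun L hL => ?_⟩
  obtain ⟨C, hC, hL⟩ := hL
  obtain ⟨n0, hn⟩ := hR
  obtain ⟨F0, h1, h2, h3⟩ := hard_KA_poly (sigma_one.1 hC) n0
  exact sigma_one.2 (isNP_join hn h1 h2 h3 hL)

theorem not_highHat_BB {R : Oracle} (h : ¬ IsP (join R (BB R)) (TT R)) :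
    ¬ HighHat R 1 (BB R) := by
  rintro ⟨-, h1⟩
  exact h (delta_one.1 (h1 _ ⟨TT R, sigma_one.2 (isNP_TT R), isP_chr _⟩))

theorem isP_compl {X : Oracle} {L : Set (List Bool)} (h : IsP X L) : IsP X Lᶜ := by
  obtain ⟨F, hF, h⟩ := h
  refine ⟨fun x => (fun z => [!decide (z = [true])]) (F x), IsFP.comp (IsFP.of_poly
    (Poly.cons (Poly.not (Poly.decide_eq Poly.id (NPC.Poly.const _))) (NPC.Poly.const _))) hF,
    fun x => ?_⟩
  rw [Set.mem_compl_iff, h]
  simp

theorem isP_right (R : Oracle) (T : Set (List Bool)) : IsP (join R T) T := by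
  refine ⟨fun x => [join R T (true :: x)], ?_, fun x => ?_⟩
  · exact IsFP.tt (A := join R T) (Q := fun x => [true :: x]) (H := fun p => p.2)
      (Poly.cons (Poly.cons (NPC.Poly.const true) Poly.id) (NPC.Poly.const []))
      (Poly.snd Poly.id)
  · simp [join]

theorem isNP_of_isP {X : Oracle} {L : Set (List Bool)} (h : IsP X L) : IsNP X L := by
  obtain ⟨F, hF, h⟩ := h
  refine ⟨fun y => F ((fun y => (unpair y).1) y), 0, IsFP.comp hF
    (IsFP.of_poly (Poly.fst poly_unpair)), fun x => ?_⟩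
  simp only [Polynomial.eval_zero, Nat.le_zero, List.length_eq_zero_iff, exists_eq_left,
    unpair_pairBits]
  exact h x

theorem not_low_TT {R : Oracle} (h : ¬ IsNP R (TT R)ᶜ) : ¬ Low R 1 (TT R) := by
  rintro ⟨-, h1⟩
  exact h (sigma_one.1 (h1 _ (sigma_one.2 (isNP_of_isP (isP_compl (isP_right R (TT R)))))))

theorem main : ∀ᵐ R ∂randomOracle, (∃ A, High R 1 A ∧ ¬ HighHat R 1 A) ∧
    ∃ A, LowHat R 2 A ∧ ¬ Low R 1 A := by
  filter_upwards [ae_keys, ae_coNP, ae_sep] with R h1 h2 h3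
  refine ⟨⟨BB R, high_BB h1, not_highHat_BB h3⟩, TT R, ⟨isNP_TT R, fun L hL => ?_⟩,
    not_low_TT h2⟩
  obtain ⟨C, hC, hL⟩ := hL
  obtain ⟨C', hC', hL'⟩ := low_tally (isNP_TT R) (fun x hx => hx.1) (sigma_one.1 hC) hL
  exact ⟨C', sigma_one.2 hC', hL'⟩

end Pool.Agent.H579R3.RH
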