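import Pool.Agent.H579R3.RH.Base

/-!
# From `NP(NP(R))` to `NP(R ⊕ B)`
-/

namespace Pool.Agent.H579R3.RH

open MeasureTheory Pool.Agent.NPC Pool.Agent.H628R3.RO Pool.Agent.H673R2.OneOne
open Pool.Agent.H673R2.OneTT (KA Hs zz bK)

/-- an entry of a transcript: question, answer, key -/
abbrev R3E : Type := List Bool × Bool × List Bool

/-- the number of questions about the key -/
def R3m (F0 : List Bool → List Bool) (t : R3E) : ℕ := ((F0 t.1).length + t.2.2.length) / 2

/-- the questions of the entry -/
def R3q (F0 : List Bool → List Bool) (t : R3E) : List (List Bool) :=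
  (asks (R3m F0 t) (6 + (F0 t.1).length) (F0 t.1 ++ t.2.2)).map (fun s => false :: s) ++
    [true :: pairBits (F0 t.1) t.2.2]

/-- the expected answers of the entry -/
def R3a (F0 : List Bool → List Bool) (t : R3E) : List Bool :=
  List.replicate (R3m F0 t) true ++ [t.2.1]

/-- following the run -/
def R3step (D : List Bool → List Bool) (z : List Bool) (s : Bool × List Bool) (t : R3E) :
    Bool × List Bool :=
  (s.1 && decide (D (pairBits z s.2) = false :: t.1), s.2 ++ [t.2.1])

theorem R3_map_replicate (R : Oracle) (m c : ℕ) (w : List Bool) :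
    (asks m c w).map R = List.replicate m true ↔ Hit m (c, w) R := by
  rw [← asks_all, List.eq_replicate_iff, List.all_eq_true]
  constructor
  · rintro ⟨-, h⟩ b hb
    exact h b hb
  · intro h
    refine ⟨by simp [asks], fun b hb => h b hb⟩

theorem R3_entry (R : Oracle) (B : Set (List Bool)) (F0 : List Bool → List Bool) (t : R3E) :
    (R3q F0 t).map (join R B) = R3a F0 t ↔
      Hit (R3m F0 t) (6 + (F0 t.1).length, F0 t.1 ++ t.2.2) R ∧
        (t.2.1 = true ↔ pairBits (F0 t.1) t.2.2 ∈ B) := by
  classical
  have h1 : (R3q F0 t).map (join R B) =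
      (asks (R3m F0 t) (6 + (F0 t.1).length) (F0 t.1 ++ t.2.2)).map R ++
        [decide (pairBits (F0 t.1) t.2.2 ∈ B)] := by
    unfold R3q
    rw [List.map_append, List.map_map]
    congr 1
  have h2 : decide (pairBits (F0 t.1) t.2.2 ∈ B) = t.2.1 ↔
      (t.2.1 = true ↔ pairBits (F0 t.1) t.2.2 ∈ B) := by
    generalize t.2.1 = c
    cases c <;> simp
  rw [h1, R3a, ← R3_map_replicate, ← h2]
  constructor
  · intro h
    obtain ⟨h3, h4⟩ := List.append_inj h (by simp [asks])
    exact ⟨h3, by simpa using h4⟩
  · rintro ⟨h3, h4⟩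
    rw [h3, h4]

theorem R3_flat {α : Type} (A : Oracle) (f : α → List (List Bool)) (g : α → List Bool)
    (hfg : ∀ t, (f t).length = (g t).length) (l : List α) :
    (l.flatMap f).map A = l.flatMap g ↔ ∀ t ∈ l, (f t).map A = g t := by
  induction l with
  | nil => simp
  | cons t l ih =>
    rw [List.flatMap_cons, List.flatMap_cons, List.map_append]
    constructor
    · intro h
      obtain ⟨h1, h2⟩ := List.append_inj h (by rw [List.length_map, hfg])
      intro s hs
      rw [List.mem_cons] at hs
      rcases hs with rfl | hs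
      · exact h1
      · exact ih.1 h2 s hs
    · intro h
      rw [h t (by simp), ih.2 fun s hs => h s (by simp [hs])]

theorem R3_fold_false (D : List Bool → List Bool) (z : List Bool) (l : List R3E) :
    ∀ acc, (l.foldl (R3step D z) (false, acc)).1 = false := by
  induction l with
  | nil => intro acc; rfl
  | cons t l ih => intro acc; rw [List.foldl_cons]; exact ih _

theorem R3_fold_snd (D : List Bool → List Bool) (z : List Bool) (l : List R3E) :
    ∀ b acc, (l.foldl (R3step D z) (b, acc)).2 = acc ++ l.map (fun t => t.2.1) := by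
  induction l with
  | nil => intro b acc; simp
  | cons t l ih =>
    intro b acc
    rw [List.foldl_cons, R3step, ih]
    simp

theorem R3_sound (M : Alg) (X : Oracle) (z : List Bool) (l : List R3E) :
    ∀ (acc : List Bool) (n : ℕ), (l.foldl (R3step M.D z) (true, acc)).1 = true →
      M.D (pairBits z (l.foldl (R3step M.D z) (true, acc)).2) = [true, true] →
      (∀ t ∈ l, t.2.1 = X t.1) → l.length < n → M.run X z n acc = some [true] := by
  induction l with
  | nil =>
    intro acc n _ h2 _ h4
    obtain ⟨n, rfl⟩ : ∃ m, n = m + 1 := ⟨n - 1, by simp at h4; omega⟩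
    rw [List.foldl_nil] at h2
    simp only at h2
    rw [Alg.run, h2]
  | cons t l ih =>
    intro acc n h1 h2 h3 h4
    obtain ⟨n, rfl⟩ : ∃ m, n = m + 1 := ⟨n - 1, by simp at h4; omega⟩
    rw [List.foldl_cons] at h1 h2
    by_cases hd : M.D (pairBits z acc) = false :: t.1
    · have hs : R3step M.D z (true, acc) t = (true, acc ++ [t.2.1]) := by
        simp [R3step, hd]
      rw [hs] at h1 h2
      rw [Alg.run, hd]
      simp only
      rw [← h3 t (by simp)]
      exact ih _ n h1 h2 (fun s hs => h3 s (by simp [hs])) (by simp at h4; omega)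
    · have hs : R3step M.D z (true, acc) t = (false, acc ++ [t.2.1]) := by
        simp [R3step, hd]
      rw [hs, R3_fold_false] at h1
      exact absurd h1 (by simp)

theorem R3_complete (M : Alg) (X : Oracle) (z : List Bool) (κ : List Bool → List Bool)
    (b : Polynomial ℕ) (hb : ∀ a : List Bool, a.length ≤ M.p.eval z.length →
      (M.D (pairBits z a)).length ≤ b.eval z.length) :
    ∀ (n : ℕ) (acc : List Bool), acc.length + n ≤ M.p.eval z.length →
      M.run X z n acc = some [true] →
      ∃ l : List R3E, l.length < n ∧ (l.foldl (R3step M.D z) (true, acc)).1 = true ∧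
        M.D (pairBits z (l.foldl (R3step M.D z) (true, acc)).2) = [true, true] ∧
        ∀ t ∈ l, t.2.1 = X t.1 ∧ t.2.2 = κ t.1 ∧ t.1.length ≤ b.eval z.length := by
  intro n
  induction n with
  | zero => intro acc _ h; simp [Alg.run] at h
  | succ n ih =>
    intro acc hn h
    rw [Alg.run] at h
    rcases hD : M.D (pairBits z acc) with _ | ⟨c, q⟩
    · rw [hD] at h
      simp at h
    · rw [hD] at h
      cases c with
      | true =>
        simp only [Option.some.injEq] at h
        subst h
        exact ⟨[], by simp, by simp, by simpa using hD, by simp⟩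
      | false =>
        simp only at h
        obtain ⟨l, h1, h2, h3, h4⟩ := ih (acc ++ [X q]) (by simp; omega) h
        have hs : R3step M.D z (true, acc) (q, X q, κ q) = (true, acc ++ [X q]) := by
          simp [R3step, hD]
        refine ⟨(q, X q, κ q) :: l, by simp; omega, ?_, ?_, ?_⟩
        · rw [List.foldl_cons, hs]; exact h2
        · rw [List.foldl_cons, hs]; exact h3
        · intro t ht
          rw [List.mem_cons] at ht
          rcases ht with rfl | ht
          · refine ⟨rfl, rfl, ?_⟩
            have h5 := hb acc (by omega)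
            rw [hD] at h5
            simp at h5
            simp only
            omega
          · exact h4 t ht

/-- decoding of the witness -/
def R3dec (W : List Bool) : List Bool × List R3E :=
  match unbits (List Bool × List R3E) W with
  | none => ([], [])
  | some a => a

theorem R3_poly_dec : Poly R3dec := by
  refine (Poly.optCases (o := fun W : List Bool => unbits (List Bool × List R3E) W)
    (g := fun _ => (([], []) : List Bool × List R3E)) (h := fun _ a => a)
    poly_unbits (NPC.Poly.const _) (Poly.snd Poly.id)).congr fun W => ?_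
  unfold R3dec
  cases unbits (List Bool × List R3E) W <;> rfl

theorem R3_dec_bits (a : List Bool × List R3E) : R3dec (bits a) = a := by
  unfold R3dec
  rw [unbits_bits]

/-- the test -/
def R3T (F0 D : List Bool → List Bool) (p s pM : Polynomial ℕ)
    (a : (List Bool × List Bool) × List Bool) : Bool :=
  decide ((R3dec a.1.2).1.length ≤ p.eval a.1.1.length) &&
  (decide ((R3dec a.1.2).2.length < pM.eval (pairBits a.1.1 (R3dec a.1.2).1).length) &&
  ((R3dec a.1.2).2.all (fun t => decide (t.2.2.length = s.eval (F0 t.1).length)) &&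
  (decide (a.2 = (R3dec a.1.2).2.flatMap (R3a F0)) &&
  (((R3dec a.1.2).2.foldl (R3step D (pairBits a.1.1 (R3dec a.1.2).1)) (true, [])).1 &&
  decide (D (pairBits (pairBits a.1.1 (R3dec a.1.2).1)
    ((R3dec a.1.2).2.foldl (R3step D (pairBits a.1.1 (R3dec a.1.2).1)) (true, [])).2) =
      [true, true])))))

theorem R3_upoly_m {α : Type} [TEnc α] {F0 : List Bool → List Bool} (hF0 : Poly F0)
    {t : α → R3E} (ht : Poly t) : UPoly (fun a => R3m F0 (t a)) := by
  have h1 : Poly (fun a => F0 (t a).1) := hF0.comp (Poly.fst ht)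
  have h2 : Poly (fun a => (t a).2.2) := Poly.snd (Poly.snd ht)
  refine UPoly.of_le (Poly.div (Poly.add (Poly.length h1) (Poly.length h2)) (NPC.Poly.const 2))
    (UPoly.add (UPoly.length h1) (UPoly.length h2)) fun a => ?_
  exact Nat.div_le_self _ _

theorem R3_poly_q {F0 : List Bool → List Bool} (hF0 : Poly F0) : Poly (R3q F0) := by
  have h1 : Poly (fun t : R3E => F0 t.1) := hF0.comp (Poly.fst Poly.id)
  have h2 : Poly (fun t : R3E => t.2.2) := Poly.snd (Poly.snd Poly.id)
  have h3 : Poly (fun t : R3E => asks (R3m F0 t) (6 + (F0 t.1).length) (F0 t.1 ++ t.2.2)) :=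
    p_asks (R3_upoly_m hF0 Poly.id) (UPoly.add (UPoly.const 6) (UPoly.length h1))
      (Poly.append h1 h2)
  refine Poly.append (NPC.Poly.map (F := fun (_ : R3E) (s : List Bool) => false :: s) h3
    (Poly.cons (NPC.Poly.const false) (Poly.snd Poly.id))) ?_
  exact Poly.cons (Poly.cons (NPC.Poly.const true) (H622R2.poly_pairBits h1 h2))
    (NPC.Poly.const [])

theorem R3_poly_a {F0 : List Bool → List Bool} (hF0 : Poly F0) : Poly (R3a F0) := by
  have h1 : Poly (fun t : R3E => List.replicate (R3m F0 t) true) := by
    refine (NPC.Poly.map (F := fun (_ : R3E) (_ : Unit) => true)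
      (R3_upoly_m hF0 (Poly.id (α := R3E))) (NPC.Poly.const true)).congr fun t => ?_
    rw [List.map_replicate]
  exact Poly.append h1 (Poly.cons (Poly.fst (Poly.snd Poly.id)) (NPC.Poly.const []))

theorem R3_poly_step {D : List Bool → List Bool} (hD : Poly D) {α : Type} [TEnc α]
    {z : α → List Bool} (hz : Poly z) {s : α → Bool × List Bool} (hs : Poly s)
    {t : α → R3E} (ht : Poly t) : Poly (fun a => R3step D (z a) (s a) (t a)) := by
  unfold R3step
  exact Poly.pair (Poly.and (Poly.fst hs) (Poly.decide_eq (hD.comp (H622R2.poly_pairBits hz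
    (Poly.snd hs))) (Poly.cons (NPC.Poly.const false) (Poly.fst ht))))
    (Poly.append (Poly.snd hs) (Poly.cons (Poly.fst (Poly.snd ht)) (NPC.Poly.const [])))

theorem R3_poly_T {F0 D : List Bool → List Bool} (hF0 : Poly F0) (hD : Poly D)
    (p s pM : Polynomial ℕ) : Poly (R3T F0 D p s pM) := by
  have hx : Poly (fun a : (List Bool × List Bool) × List Bool => a.1.1) :=
    Poly.fst (Poly.fst Poly.id)
  have hd : Poly (fun a : (List Bool × List Bool) × List Bool => R3dec a.1.2) :=
    R3_poly_dec.comp (Poly.snd (Poly.fst Poly.id))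
  have hw := Poly.fst hd
  have hl := Poly.snd hd
  have hz : Poly (fun a : (List Bool × List Bool) × List Bool =>
      pairBits a.1.1 (R3dec a.1.2).1) := H622R2.poly_pairBits hx hw
  have hfold : Poly (fun a : (List Bool × List Bool) × List Bool =>
      (R3dec a.1.2).2.foldl (R3step D (pairBits a.1.1 (R3dec a.1.2).1)) (true, [])) := by
    obtain ⟨r, hr⟩ := hl.sz_le
    refine Poly.foldl (l := fun a : (List Bool × List Bool) × List Bool => (R3dec a.1.2).2)
      (s := fun _ => ((true, []) : Bool × List Bool))
      (F := fun a => R3step D (pairBits a.1.1 (R3dec a.1.2).1)) hl (NPC.Poly.const _)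
      (R3_poly_step hD (hz.comp (Poly.fst Poly.id)) (Poly.fst (Poly.snd Poly.id))
        (Poly.snd (Poly.snd Poly.id))) (Polynomial.C 4 * r + Polynomial.C 10) ?_
    intro a k hk
    have h1 := R3_fold_snd D (pairBits a.1.1 (R3dec a.1.2).1) ((R3dec a.1.2).2.take k) true []
    have h2 := sz_listBool_le ((((R3dec a.1.2).2.take k).foldl
      (R3step D (pairBits a.1.1 (R3dec a.1.2).1)) (true, [])).2)
    rw [h1] at h2
    have h3 := sz_bool_le ((((R3dec a.1.2).2.take k).foldl
      (R3step D (pairBits a.1.1 (R3dec a.1.2).1)) (true, [])).1)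
    have h4 := length_lt_sz (R3dec a.1.2).2
    have h5 := hr a
    generalize hS : ((R3dec a.1.2).2.take k).foldl
      (R3step D (pairBits a.1.1 (R3dec a.1.2).1)) (true, []) = S at *
    obtain ⟨S1, S2⟩ := S
    simp only [sz_pair, Polynomial.eval_add, Polynomial.eval_mul, Polynomial.eval_C] at *
    rw [← h1] at h2
    have h6 : S2.length ≤ (R3dec a.1.2).2.length := by
      rw [h1]; simp
    have h7 := sz_listBool_le S2
    omega
  unfold R3T
  refine Poly.and (Poly.decide_le (Poly.length hw) (UPoly.toPoly (UPoly.eval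
    (UPoly.length hx) p))) (Poly.and (Poly.decide_lt (Poly.length hl) (UPoly.toPoly (UPoly.eval
    (UPoly.length hz) pM))) (Poly.and (Poly.all (p := fun (_ : (List Bool × List Bool) × List Bool)
      (t : R3E) => decide (t.2.2.length = s.eval (F0 t.1).length)) hl ?_)
    (Poly.and (Poly.decide_eq (Poly.snd Poly.id) (Poly.flatMap (F := fun _ t => R3a F0 t) hl
      ((R3_poly_a hF0).comp (Poly.snd Poly.id)))) (Poly.and (Poly.fst hfold)
      (Poly.decide_eq (hD.comp (H622R2.poly_pairBits hz (Poly.snd hfold)))
        (NPC.Poly.const _))))))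
  have ht : Poly (fun x : ((List Bool × List Bool) × List Bool) × R3E => x.2) := Poly.snd Poly.id
  exact Poly.decide_eq (Poly.length (Poly.snd (Poly.snd ht)))
    (UPoly.toPoly (UPoly.eval (UPoly.length (hF0.comp (Poly.fst ht))) s))

theorem isNP_join {R : Oracle} {n0 : ℕ}
    (hR : ∀ y : List Bool, n0 ≤ y.length → ∃ u, Key R y u)
    {C L : Set (List Bool)} {F0 : List Bool → List Bool} (hF0 : Poly F0)
    (h0 : ∀ q, n0 ≤ (F0 q).length) (hC : ∀ q, q ∈ C ↔ F0 q ∈ KA R)
    (hL : IsNP (chr C) L) : IsNP (join R (BB R)) L := by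
  classical
  obtain ⟨V, p, ⟨M, hM⟩, hV⟩ := hL
  obtain ⟨b, hb⟩ := A2.act_bound M
  obtain ⟨r, hr⟩ := hF0.sz_le
  have hDp : Poly M.D := H622R2.poly_of_polyTime M.poly
  choose! κ hκ using hR
  -- correctness of the entries
  have hent : ∀ t : R3E, t.2.2.length = sK.eval (F0 t.1).length →
      ((R3q F0 t).map (join R (BB R)) = R3a F0 t ↔
        Key R (F0 t.1) t.2.2 ∧ t.2.1 = chr C t.1) := by
    intro t ht
    rw [R3_entry]
    have h1 : Hit (R3m F0 t) (6 + (F0 t.1).length, F0 t.1 ++ t.2.2) R ↔ Key R (F0 t.1) t.2.2 := by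
      unfold Key R3m
      exact ⟨fun h => ⟨ht, h⟩, fun h => h.2⟩
    rw [h1]
    refine and_congr_right fun hk => ?_
    have h2 : pairBits (F0 t.1) t.2.2 ∈ BB R ↔ t.1 ∈ C := by
      unfold BB
      simp only [Set.mem_ofPred_eq, unpair_pairBits]
      rw [hC]
      exact ⟨fun h => h.2, fun h => ⟨hk, h⟩⟩
    rw [h2]
    unfold chr
    by_cases h3 : t.1 ∈ C
    · simp [h3]
    · simp [h3]
  have hlen : ∀ t : R3E, (R3q F0 t).length = (R3a F0 t).length := by
    intro t; simp [R3q, R3a, asks]
  set zl : Polynomial ℕ := Polynomial.C 2 * Polynomial.X + Polynomial.C 1 + p with hzl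
  set q1 : Polynomial ℕ := b.comp zl with hq1
  set q2 : Polynomial ℕ := r.comp (Polynomial.C 4 * q1 + Polynomial.C 1) with hq2
  set q3 : Polynomial ℕ := sK.comp q2 with hq3
  refine isNP_of_tt (join R (BB R)) L
    (Q := fun a => (R3dec a.2).2.flatMap (R3q F0)) (T := R3T F0 M.D p sK M.p)
    (Poly.flatMap (F := fun _ t => R3q F0 t) (Poly.snd (R3_poly_dec.comp (Poly.snd Poly.id)))
      ((R3_poly_q hF0).comp (Poly.snd Poly.id))) (R3_poly_T hF0 hDp p sK M.p)
    (Polynomial.C 4 * p + Polynomial.C 10 +
      (M.p.comp zl) * (Polynomial.C 4 * q1 + Polynomial.C 4 * q3 + Polynomial.C 10))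
    fun x => ?_
  rw [hV x]
  constructor
  · rintro ⟨w, hw, hVw⟩
    set z := pairBits x w with hz
    have hzlen : z.length ≤ zl.eval x.length := by
      rw [hz, H628R3.RO.length_pairBits_A3, hzl]
      simp only [Polynomial.eval_add, Polynomial.eval_mul, Polynomial.eval_C, Polynomial.eval_X]
      omega
    have hrun : M.run (chr C) z (M.p.eval z.length) [] = some [true] := by
      have := hM z
      rw [hVw] at this
      exact this
    obtain ⟨l, h1, h2, h3, h4⟩ := R3_complete M (chr C) z (fun q => κ (F0 q)) b (hb z) _ []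
      (by simp) hrun
    refine ⟨bits (w, l), ?_, ?_⟩
    · rw [bits_length, sz_pair]
      have g1 := sz_listBool_le w
      have g2 : sz l ≤ l.length * ((4 * q1.eval x.length + 4 * q3.eval x.length + 7) + 1) + 1 := by
        refine sz_le_length_mul l _ fun t ht => ?_
        obtain ⟨-, h5, h6⟩ := h4 t ht
        have e1 : t.1.length ≤ q1.eval x.length := by
          rw [hq1, Polynomial.eval_comp]
          exact h6.trans (eval_mono _ hzlen)
        have e2 : (F0 t.1).length ≤ q2.eval x.length := by
          rw [hq2, Polynomial.eval_comp]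
          refine (length_lt_sz _).le.trans ((hr t.1).trans (eval_mono _ ?_))
          have := sz_listBool_le t.1
          simp only [Polynomial.eval_add, Polynomial.eval_mul, Polynomial.eval_C]
          omega
        have e3 : t.2.2.length ≤ q3.eval x.length := by
          rw [hq3, Polynomial.eval_comp, h5, (hκ _ (h0 t.1)).1]
          exact eval_mono _ e2
        obtain ⟨t1, t2, t3⟩ := t
        simp only [sz_pair] at *
        have e4 := sz_listBool_le t1
        have e5 := sz_listBool_le t3
        have e6 := sz_bool_le t2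
        omega
      have g3 : l.length ≤ (M.p.comp zl).eval x.length := by
        rw [Polynomial.eval_comp]
        exact h1.le.trans (eval_mono _ hzlen)
      simp only [Polynomial.eval_add, Polynomial.eval_mul, Polynomial.eval_C] at g3 ⊢
      have g4 : l.length * ((4 * q1.eval x.length + 4 * q3.eval x.length + 7) + 1) ≤
          (M.p.comp zl).eval x.length * (4 * q1.eval x.length + 4 * q3.eval x.length + 10) :=
        Nat.mul_le_mul g3 (by omega)
      omega
    · unfold R3T
      simp only [R3_dec_bits, Bool.and_eq_true, decide_eq_true_eq, List.all_eq_true]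
      refine ⟨hw, h1, ?_, ?_, h2, h3⟩
      · intro t ht
        obtain ⟨-, h5, -⟩ := h4 t ht
        rw [h5]
        exact (hκ _ (h0 t.1)).1
      · rw [R3_flat _ _ _ hlen]
        intro t ht
        obtain ⟨h5, h6, -⟩ := h4 t ht
        have h7 := hκ _ (h0 t.1)
        rw [← h6] at h7
        exact (hent t h7.1).2 ⟨h7, h5⟩
  · rintro ⟨W, -, hT⟩
    unfold R3T at hT
    simp only [Bool.and_eq_true, decide_eq_true_eq, List.all_eq_true] at hT
    obtain ⟨h1, h2, h3, h4, h5, h6⟩ := hT
    rw [R3_flat _ _ _ hlen] at h4
    refine ⟨(R3dec W).1, h1, ?_⟩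
    have h7 : M.run (chr C) (pairBits x (R3dec W).1) (M.p.eval (pairBits x (R3dec W).1).length) [] =
        some [true] := by
      refine R3_sound M (chr C) _ (R3dec W).2 [] _ h5 h6 ?_ h2
      intro t ht
      exact ((hent t (h3 t ht)).1 (h4 t ht)).2
    have h8 := hM (pairBits x (R3dec W).1)
    unfold Alg.out at h8
    rw [h7] at h8
    exact (Option.some.inj h8).symm

end Pool.Agent.H579R3.RH
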