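import Pool.Agent.H579R3.RH.Base

/-!
# The tally set is not in `coNP` relative to a random oracle
-/

namespace Pool.Agent.H579R3.RH

open MeasureTheory Pool.Agent.NPC Pool.Agent.H628R3.RO Pool.Agent.H673R2.OneOne
open Pool.Agent.H673R2.OneTT (KA Hs zz bK)
open Pool.Agent.H673R2.OneTT (Wc Tc mm mem_Wc mm_cand card_Wc_le card_Wc_ge length_zz
  finite_short' hs_congr pow_ge prob_sdiff)

/-! ### Sums of probabilities -/

theorem R5_prob_eq {E : Set Oracle} (hE : MeasurableSet E) :
    prob E = ∫ B, E.indicator (fun _ => (1 : ℝ)) B ∂randomOracle := by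
  rw [integral_indicator_const _ hE]
  simp [prob]

theorem R5_int {E : Set Oracle} (hE : MeasurableSet E) :
    Integrable (fun B => E.indicator (fun _ => (1 : ℝ)) B) randomOracle :=
  (integrable_const (1 : ℝ)).indicator hE

theorem R5_ind_sum {ι : Type*} (I : Finset ι) (U : ι → Set Oracle) (A : Oracle) [DecidablePred
    (fun i => A ∈ U i)] : ∑ i ∈ I, (U i).indicator (fun _ => (1 : ℝ)) A =
      ((I.filter (fun i => A ∈ U i)).card : ℝ) := by
  rw [Finset.card_filter]
  push_cast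
  refine Finset.sum_congr rfl fun i _ => ?_
  by_cases h : A ∈ U i
  · simp [h]
  · simp [h]

open Classical in
theorem R5_sum_ge {ι : Type*} (I : Finset ι) (U : ι → Set Oracle)
    (hU : ∀ i ∈ I, MeasurableSet (U i)) {E : Set Oracle} (hE : MeasurableSet E) (c : ℝ)
    (h : ∀ A ∈ E, c ≤ ((I.filter (fun i => A ∈ U i)).card : ℝ)) :
    c * prob E ≤ ∑ i ∈ I, prob (U i) := by
  rw [Finset.sum_congr rfl fun i hi => R5_prob_eq (hU i hi),
    ← integral_finset_sum I fun i hi => R5_int (hU i hi), R5_prob_eq hE, ← integral_const_mul]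
  refine integral_mono ((R5_int hE).const_mul c) (integrable_finset_sum I
    fun i hi => R5_int (hU i hi)) fun A => ?_
  simp only
  rw [R5_ind_sum]
  by_cases hA : A ∈ E
  · simp only [hA, Set.indicator_of_mem, mul_one]
    exact h A hA
  · simp only [hA, not_false_eq_true, Set.indicator_of_notMem, mul_zero]
    positivity

open Classical in
theorem R5_sum_le {ι : Type*} (I : Finset ι) (U : ι → Set Oracle)
    (hU : ∀ i ∈ I, MeasurableSet (U i)) {E : Set Oracle} (hE : MeasurableSet E)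
    (hUE : ∀ i ∈ I, U i ⊆ E) (h : ∀ A, ∀ i ∈ I, ∀ j ∈ I, A ∈ U i → A ∈ U j → i = j) :
    ∑ i ∈ I, prob (U i) ≤ prob E := by
  rw [Finset.sum_congr rfl fun i hi => R5_prob_eq (hU i hi),
    ← integral_finset_sum I fun i hi => R5_int (hU i hi), R5_prob_eq hE]
  refine integral_mono (integrable_finset_sum I
    fun i hi => R5_int (hU i hi)) (R5_int hE) fun A => ?_
  simp only
  rw [R5_ind_sum]
  have h1 : (I.filter (fun i => A ∈ U i)).card ≤ 1 := by
    rw [Finset.card_le_one]
    intro i hi j hj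
    rw [Finset.mem_filter] at hi hj
    exact h A i hi.1 j hj.1 hi.2 hj.2
  by_cases hA : A ∈ E
  · simp only [hA, Set.indicator_of_mem]
    exact_mod_cast h1
  · have h2 : I.filter (fun i => A ∈ U i) = ∅ := by
      rw [Finset.filter_eq_empty_iff]
      intro i hi h3
      exact hA (hUE i hi h3)
    rw [h2]
    simp [hA]

/-! ### The accepting witnesses -/

open Classical in
/-- the accepted witnesses -/
noncomputable def R5S (M : Alg) (p : Polynomial ℕ) (n : ℕ) (A : Oracle) : Finset (List Bool) :=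
  (strs (p.eval n)).toFinset.filter (fun w => M.out A (pairBits (zz n) w) = some [true])

theorem R5_mem_S {M : Alg} {p : Polynomial ℕ} {n : ℕ} {A : Oracle} {w : List Bool} :
    w ∈ R5S M p n A ↔ w.length ≤ p.eval n ∧ M.out A (pairBits (zz n) w) = some [true] := by
  classical
  unfold R5S
  rw [Finset.mem_filter, List.mem_toFinset, mem_strs]

open Classical in
/-- the chosen witness -/
noncomputable def R5w (S : Finset (List Bool)) : List Bool := if h : S.Nonempty then h.choose else []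

theorem R5w_mem {S : Finset (List Bool)} (h : S.Nonempty) : R5w S ∈ S := by
  unfold R5w
  rw [dif_pos h]
  exact h.choose_spec

/-- the questions on the chosen witness -/
noncomputable def R5Q (M : Alg) (p : Polynomial ℕ) (n : ℕ) (A : Oracle) : Finset (List Bool) :=
  (QA.out M (pairBits (zz n) (R5w (R5S M p n A)))).qs A

/-- a bound for the length of the questions -/
noncomputable def R5N (M : Alg) (p : Polynomial ℕ) (n : ℕ) : ℕ :=
  (qb M).eval (2 * n + 1 + p.eval n)

theorem R5_qlen {M : Alg} {p : Polynomial ℕ} {n : ℕ} {w : List Bool}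
    (hw : w.length ≤ p.eval n) (A : Oracle) :
    ∀ x ∈ (QA.out M (pairBits (zz n) w)).qs A, x.length ≤ R5N M p n := by
  intro x hx
  refine (qb_spec M _ A x hx).trans (eval_mono _ ?_)
  rw [H628R3.RO.length_pairBits, length_zz]
  omega

theorem R5_out_congr {M : Alg} {p : Polynomial ℕ} {n : ℕ} {A A' : Oracle}
    (h : ∀ x : List Bool, x.length ≤ R5N M p n → A x = A' x) {w : List Bool}
    (hw : w.length ≤ p.eval n) :
    M.out A' (pairBits (zz n) w) = M.out A (pairBits (zz n) w) ∧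
      (QA.out M (pairBits (zz n) w)).qs A' = (QA.out M (pairBits (zz n) w)).qs A := by
  have h1 := (QA.out M (pairBits (zz n) w)).loc A A' fun x hx => (h x (R5_qlen hw A x hx)).symm
  rw [QA.out_val, QA.out_val] at h1
  exact h1

theorem R5S_congr {M : Alg} {p : Polynomial ℕ} {n : ℕ} {A A' : Oracle}
    (h : ∀ x : List Bool, x.length ≤ R5N M p n → A x = A' x) : R5S M p n A' = R5S M p n A := by
  ext w
  rw [R5_mem_S, R5_mem_S]
  refine and_congr_right fun hw => ?_
  rw [(R5_out_congr h hw).1]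

theorem R5w_len {M : Alg} {p : Polynomial ℕ} {n : ℕ} {A : Oracle} :
    (R5w (R5S M p n A)).length ≤ p.eval n := by
  by_cases h : (R5S M p n A).Nonempty
  · exact (R5_mem_S.1 (R5w_mem h)).1
  · unfold R5w
    rw [dif_neg h]
    simp

theorem R5Q_congr {M : Alg} {p : Polynomial ℕ} {n : ℕ} {A A' : Oracle}
    (h : ∀ x : List Bool, x.length ≤ R5N M p n → A x = A' x) : R5Q M p n A' = R5Q M p n A := by
  unfold R5Q
  rw [R5S_congr h]
  exact (R5_out_congr h R5w_len).2

/-- the number of rounds -/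
noncomputable def R5r (M : Alg) (p : Polynomial ℕ) : Polynomial ℕ :=
  M.p.comp (2 * Polynomial.X + 1 + p)

theorem R5Q_card (M : Alg) (p : Polynomial ℕ) (n : ℕ) (A : Oracle) :
    (R5Q M p n A).card ≤ (R5r M p).eval n := by
  unfold R5Q R5r
  refine (QA.out_card M _ A).trans ?_
  rw [Polynomial.eval_comp]
  apply eval_mono
  rw [H628R3.RO.length_pairBits, length_zz]
  have := R5w_len (M := M) (p := p) (n := n) (A := A)
  simp only [Polynomial.eval_add, Polynomial.eval_mul, Polynomial.eval_X, Polynomial.eval_ofNat,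
    Polynomial.eval_one]
  omega

/-- the event of being correct for length `n` -/
def R5Work (M : Alg) (p : Polynomial ℕ) (n : ℕ) : Set Oracle :=
  {A | (R5S M p n A).Nonempty ↔ zz n ∉ Hs 5 A}

theorem R5_meas_work (M : Alg) (p : Polynomial ℕ) (n : ℕ) : MeasurableSet (R5Work M p n) := by
  refine measurableSet_of_loc (finite_short' (R5N M p n + (3 * n + 7))) fun A A' h => ?_
  unfold R5Work
  simp only [Set.mem_ofPred_eq]
  have h1 : R5S M p n A' = R5S M p n A := R5S_congr fun x hx => h x (by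
    show x.length ≤ _
    omega)
  have h2 : zz n ∈ Hs 5 A ↔ zz n ∈ Hs 5 A' := by
    apply hs_congr
    intro x hx
    rw [length_zz] at hx
    exact h x (by show x.length ≤ _; omega)
  rw [h1, h2]

/-- the candidates -/
noncomputable def R5W (n : ℕ) : Finset Cand := Wc 5 (zz n) ∅

theorem R5_mem_W {n : ℕ} {κ : Cand} :
    κ ∈ R5W n ↔ ∃ w : List Bool, w.length = n ∧ (5, zz n ++ w) = κ := by
  unfold R5W
  rw [mem_Wc, length_zz]
  constructor
  · rintro ⟨h, -⟩; exact h
  · intro h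
    refine ⟨h, ?_⟩
    rintro ⟨x, hx, -⟩
    simp at hx

theorem R5_hs {n : ℕ} {A : Oracle} : zz n ∉ Hs 5 A ↔ A ∈ NoHit n (R5W n) := by
  unfold Hs NoHit
  simp only [Set.mem_ofPred_eq, length_zz]
  constructor
  · intro h κ hκ hit
    obtain ⟨w, hw, rfl⟩ := R5_mem_W.1 hκ
    exact h ⟨w, hw, hit⟩
  · rintro h ⟨w, hw, hit⟩
    exact h (5, zz n ++ w) (R5_mem_W.2 ⟨w, hw, rfl⟩) hit

theorem R5_mm {n : ℕ} {κ : Cand} (h : κ ∈ R5W n) : mm κ = n := by
  obtain ⟨w, hw, rfl⟩ := R5_mem_W.1 h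
  rw [mm_cand (by rw [length_zz, hw]), length_zz]

theorem R5_spot_len {n : ℕ} {κ : Cand} (h : κ ∈ R5W n) {x : List Bool} (hx : x ∈ spots n κ) :
    n < x.length := by
  obtain ⟨w, hw, rfl⟩ := R5_mem_W.1 h
  obtain ⟨i, hi, rfl⟩ := M2.mem_spots.1 hx
  rw [length_pos]
  simp only [List.length_append, length_zz]
  omega

/-- accepted, not a member, in the cylinder, and the candidate is not touched -/
def R5U (M : Alg) (p : Polynomial ℕ) (n t : ℕ) (L : List (List Bool)) (κ : Cand) : Set Oracle :=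
  {A | (R5S M p n A).Nonempty ∧ ¬ Tc (R5Q M p n A) κ} ∩ (NoHit n (R5W n) ∩ cyl t L)

theorem R5_meas_U (M : Alg) (p : Polynomial ℕ) (n t : ℕ) (L : List (List Bool)) (κ : Cand) :
    MeasurableSet (R5U M p n t L κ) := by
  refine MeasurableSet.inter ?_ ((M2.measurableSet_noHit _ _).inter (measurableSet_cyl t L))
  refine measurableSet_of_loc (finite_short' (R5N M p n)) fun A A' h => ?_
  simp only [Set.mem_ofPred_eq]
  rw [R5S_congr (A := A) (A' := A') fun x hx => h x hx,
    R5Q_congr (A := A) (A' := A') fun x hx => h x hx]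

theorem R5_meas_E (M : Alg) (p : Polynomial ℕ) (n t : ℕ) (L : List (List Bool)) :
    MeasurableSet ({A | (R5S M p n A).Nonempty} ∩ (NoHit n (R5W n) ∩ cyl t L)) := by
  refine MeasurableSet.inter ?_ ((M2.measurableSet_noHit _ _).inter (measurableSet_cyl t L))
  refine measurableSet_of_loc (finite_short' (R5N M p n)) fun A A' h => ?_
  simp only [Set.mem_ofPred_eq]
  rw [R5S_congr (A := A) (A' := A') fun x hx => h x hx]

theorem R5_plant {M : Alg} {p : Polynomial ℕ} {n t : ℕ} {L : List (List Bool)} {κ : Cand}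
    (hnt : t ≤ n) (hκ : κ ∈ R5W n) {A : Oracle} (hA : A ∈ R5U M p n t L κ) :
    plant (spots n κ) A ∈ (cyl t L ∩ (R5Work M p n)ᶜ) ∩ HitSet n (R5W n) {κ} := by
  obtain ⟨⟨hS, hT⟩, hN, hC⟩ := hA
  have hw := R5_mem_S.1 (R5w_mem hS)
  have hhit : Hit n κ (plant (spots n κ) A) := by
    rw [← M2.allSpots_singleton]
    exact M2.hit_plant_self (by simp) A
  refine ⟨⟨?_, ?_⟩, ?_⟩
  · intro x hx
    have h1 : x ∉ spots n κ := by
      intro h2
      have := R5_spot_len hκ h2
      omega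
    unfold plant
    rw [if_neg h1]
    exact hC x hx
  · have h1 := ((QA.out M (pairBits (zz n) (R5w (R5S M p n A)))).loc A (plant (spots n κ) A)
      fun x hx => by
        have h2 : x ∉ spots n κ := by
          intro h3
          apply hT
          refine ⟨x, hx, ?_⟩
          rw [R5_mm hκ]
          exact h3
        unfold plant
        rw [if_neg h2]).1
    rw [QA.out_val, QA.out_val] at h1
    intro h2
    have h3 : (R5S M p n (plant (spots n κ) A)).Nonempty :=
      ⟨R5w (R5S M p n A), R5_mem_S.2 ⟨hw.1, by rw [h1]; exact hw.2⟩⟩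
    have h4 := R5_hs.1 (h2.1 h3)
    exact h4 κ hκ hhit
  · intro κ' hκ'
    rw [Finset.mem_singleton]
    constructor
    · intro h1
      by_contra hne
      rw [← M2.allSpots_singleton, M2.hit_plant (by simpa using hne)] at h1
      exact hN κ' hκ' h1
    · rintro rfl
      exact hhit

theorem R5_cyl (M : Alg) (p : Polynomial ℕ) {t : ℕ} {L : List (List Bool)} :
    ∃ n, prob (R5Work M p n ∩ cyl t L) ≤ 11 / 12 * prob (cyl t L) := by
  classical
  obtain ⟨n0, hn0⟩ := mul_poly_le_two_pow' (R5r M p) 2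
  set n := max (max n0 t) 1 with hn
  have h0 : n0 ≤ n := le_trans (le_max_left _ _) (le_max_left _ _)
  have hnt : t ≤ n := le_trans (le_max_right _ _) (le_max_left _ _)
  have hn1 : 1 ≤ n := le_max_right _ _
  have hr := hn0 n h0
  refine ⟨n, ?_⟩
  have hmW := R5_meas_work M p n
  have hmC := measurableSet_cyl t L
  set E : Set Oracle := {A | (R5S M p n A).Nonempty} ∩ (NoHit n (R5W n) ∩ cyl t L) with hE
  have hmE : MeasurableSet E := R5_meas_E M p n t L
  have hpow : (1 / 2 : ℝ) ^ n * 2 ^ n = 1 := by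
    rw [← mul_pow]; norm_num
  -- planting
  have h1 : ∀ κ ∈ R5W n, (1 / 2 : ℝ) ^ n * prob (R5U M p n t L κ) ≤
      prob ((cyl t L ∩ (R5Work M p n)ᶜ) ∩ HitSet n (R5W n) {κ}) := by
    intro κ hκ
    have hm : MeasurableSet ((cyl t L ∩ (R5Work M p n)ᶜ) ∩ HitSet n (R5W n) {κ}) :=
      (hmC.inter hmW.compl).inter (M2.measurableSet_hitSet _ _ _)
    have h2 := prob_plant hm (spots n κ)
    rw [M2.card_spots] at h2
    have h3 : prob (R5U M p n t L κ) ≤
        prob (plant (spots n κ) ⁻¹' ((cyl t L ∩ (R5Work M p n)ᶜ) ∩ HitSet n (R5W n) {κ})) :=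
      M2.prob_mono fun A hA => R5_plant hnt hκ hA
    calc (1 / 2 : ℝ) ^ n * prob (R5U M p n t L κ) ≤ (1 / 2 : ℝ) ^ n *
          prob (plant (spots n κ) ⁻¹' ((cyl t L ∩ (R5Work M p n)ᶜ) ∩ HitSet n (R5W n) {κ})) :=
          mul_le_mul_of_nonneg_left h3 (by positivity)
      _ = prob ({A | ∀ x ∈ spots n κ, A x = true} ∩
          ((cyl t L ∩ (R5Work M p n)ᶜ) ∩ HitSet n (R5W n) {κ})) := h2.symm
      _ ≤ _ := M2.prob_mono Set.inter_subset_right
  have h2 : ∑ κ ∈ R5W n, prob ((cyl t L ∩ (R5Work M p n)ᶜ) ∩ HitSet n (R5W n) {κ}) ≤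
      prob (cyl t L ∩ (R5Work M p n)ᶜ) := by
    refine R5_sum_le _ _ (fun κ _ => (hmC.inter hmW.compl).inter (M2.measurableSet_hitSet _ _ _))
      (hmC.inter hmW.compl) (fun κ _ => Set.inter_subset_left) ?_
    intro A κ hκ κ' hκ' h3 h4
    have h5 := (h3.2 κ hκ).2 (by simp)
    have h6 := (h4.2 κ hκ).1 h5
    simpa using h6
  have h3 : ((2 : ℝ) ^ n - (R5r M p).eval n) * prob E ≤ ∑ κ ∈ R5W n, prob (R5U M p n t L κ) := by
    refine R5_sum_ge _ _ (fun κ _ => R5_meas_U M p n t L κ) hmE _ fun A hA => ?_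
    have h4 : Wc 5 (zz n) (R5Q M p n A) ⊆ (R5W n).filter (fun κ => A ∈ R5U M p n t L κ) := by
      intro κ hκ
      rw [mem_Wc, length_zz] at hκ
      rw [Finset.mem_filter]
      exact ⟨R5_mem_W.2 hκ.1, ⟨hA.1, hκ.2⟩, hA.2⟩
    have h5 := Finset.card_le_card h4
    have h6 := card_Wc_ge 5 (zz n) (R5Q M p n A)
    rw [length_zz] at h6
    have h7 := R5Q_card M p n A
    have h8 : 2 ^ n ≤ ((R5W n).filter (fun κ => A ∈ R5U M p n t L κ)).card +
        (R5r M p).eval n := by omega
    have h9 : ((2 ^ n : ℕ) : ℝ) ≤ ((((R5W n).filter (fun κ => A ∈ R5U M p n t L κ)).card +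
        (R5r M p).eval n : ℕ) : ℝ) := by exact_mod_cast h8
    push_cast at h9
    linarith
  have hy : 1 / 2 * prob E ≤ prob (cyl t L ∩ (R5Work M p n)ᶜ) := by
    have h4 : (1 / 2 : ℝ) ^ n * (((2 : ℝ) ^ n - (R5r M p).eval n) * prob E) ≤
        prob (cyl t L ∩ (R5Work M p n)ᶜ) := by
      calc (1 / 2 : ℝ) ^ n * (((2 : ℝ) ^ n - (R5r M p).eval n) * prob E) ≤
            (1 / 2 : ℝ) ^ n * ∑ κ ∈ R5W n, prob (R5U M p n t L κ) :=
            mul_le_mul_of_nonneg_left h3 (by positivity)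
        _ = ∑ κ ∈ R5W n, (1 / 2 : ℝ) ^ n * prob (R5U M p n t L κ) := by rw [Finset.mul_sum]
        _ ≤ _ := (Finset.sum_le_sum h1).trans h2
    refine le_trans ?_ h4
    have h5 : (2 : ℝ) * (R5r M p).eval n ≤ 2 ^ n := by exact_mod_cast hr
    have h6 : (1 / 2 : ℝ) ≤ (1 / 2 : ℝ) ^ n * ((2 : ℝ) ^ n - (R5r M p).eval n) := by
      have h7 : (0 : ℝ) < (1 / 2 : ℝ) ^ n := by positivity
      nlinarith
    have h7 : 0 ≤ prob E := M2.prob_nonneg E
    calc 1 / 2 * prob E ≤ ((1 / 2 : ℝ) ^ n * ((2 : ℝ) ^ n - (R5r M p).eval n)) * prob E :=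
          mul_le_mul_of_nonneg_right h6 h7
      _ = _ := by ring
  have hz : 1 / 4 * prob (cyl t L) ≤ prob (cyl t L ∩ NoHit n (R5W n)) := by
    rw [M2.prob_noHit_aux hmC n (R5W n)]
    · have h4 : (R5W n).card ≤ 2 ^ n := by
        have := card_Wc_le 5 (zz n) ∅
        rwa [length_zz] at this
      have h5 := pow_ge hn1 h4
      have h6 := M2.prob_nonneg (cyl t L)
      nlinarith
    · intro κ hκ A
      have h4 : ∀ x : List Bool, x.length ≤ t → plant (spots n κ) A x = A x := by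
        intro x hx
        have h5 : x ∉ spots n κ := by
          intro h6
          have := R5_spot_len hκ h6
          omega
        unfold plant
        rw [if_neg h5]
      unfold cyl
      simp only [Set.mem_ofPred_eq]
      refine forall₂_congr fun x hx => ?_
      rw [h4 x hx]
  have hsub : cyl t L ∩ NoHit n (R5W n) ⊆ E ∪ (cyl t L ∩ (R5Work M p n)ᶜ) := by
    rintro A ⟨hA1, hA2⟩
    by_cases hA3 : (R5S M p n A).Nonempty
    · exact Or.inl ⟨hA3, hA2, hA1⟩
    · refine Or.inr ⟨hA1, fun h4 => hA3 (h4.2 (R5_hs.2 hA2))⟩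
  have h4 := (M2.prob_mono hsub).trans (M2.prob_union_le _ _)
  have h5 := M2.prob_inter_add_compl (cyl t L) hmW
  have h6 : R5Work M p n ∩ cyl t L = cyl t L ∩ R5Work M p n := Set.inter_comm _ _
  rw [h6]
  linarith

theorem R5_ae : ∀ᵐ A ∂randomOracle, ∀ (M : Alg) (p : Polynomial ℕ), ∃ n, A ∉ R5Work M p n := by
  have hc : Countable (Polynomial ℕ) := by
    have : Function.Injective (fun p : Polynomial ℕ => (p.toFinsupp.coeff : ℕ →₀ ℕ)) := by
      intro p q h
      ext n
      exact DFunLike.congr_fun h n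
    exact this.countable
  rw [ae_all_iff]
  intro M
  rw [ae_all_iff]
  intro p
  rw [ae_iff]
  have h1 : {A : Oracle | ¬ ∃ n, A ∉ R5Work M p n} = ⋂ n, R5Work M p n := by
    ext A
    simp
  rw [h1]
  have hm : MeasurableSet (⋂ n, R5Work M p n) := MeasurableSet.iInter fun n => R5_meas_work M p n
  by_contra hne
  have hpos : 0 < prob (⋂ n, R5Work M p n) := by
    unfold prob
    rw [measureReal_def]
    exact ENNReal.toReal_pos hne (measure_ne_top _ _)
  obtain ⟨t, L, hL, h2⟩ := exists_cyl hm hpos (δ := 1 / 64) (by norm_num)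
  obtain ⟨n, h3⟩ := R5_cyl M p (t := t) (L := L)
  have h4 : prob ((⋂ n, R5Work M p n) ∩ cyl t L) ≤ prob (R5Work M p n ∩ cyl t L) := by
    apply M2.prob_mono
    rintro A ⟨h5, h6⟩
    exact ⟨Set.mem_iInter.1 h5 n, h6⟩
  linarith

theorem ae_coNP : ∀ᵐ R ∂randomOracle, ¬ IsNP R (TT R)ᶜ := by
  filter_upwards [R5_ae] with R hR
  rintro ⟨V, p, ⟨M, hM⟩, hV⟩
  obtain ⟨n, hn⟩ := hR M p
  apply hn
  have h1 := hV (zz n)
  have h2 : zz n ∈ (TT R)ᶜ ↔ zz n ∉ Hs 5 R := by
    unfold TT
    simp [length_zz]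
  rw [h2, length_zz] at h1
  show (R5S M p n R).Nonempty ↔ zz n ∉ Hs 5 R
  rw [h1]
  refine exists_congr fun w => ?_
  rw [R5_mem_S, hM]
  simp

end Pool.Agent.H579R3.RH
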