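import Pool.Agent.H579R3.RH.Base

/-!
# Tally sets in `NP` are low for `Δ_2`
-/

namespace Pool.Agent.H579R3.RH

open MeasureTheory Pool.Agent.NPC Pool.Agent.H628R3.RO Pool.Agent.H673R2.OneOne
open Pool.Agent.H673R2.OneTT (KA Hs zz bK)

namespace LowT

/-! ### Simulation of an algorithm with another oracle, which may depend on the input -/

/-- the next simulated answer is appended -/
def sAns (D φ : List Bool → List Bool) (Hf : (List Bool × List Bool) × Bool → Bool)
    (z s : List Bool) (b : Bool) : List Bool :=
  s ++ [Hf ((z, (D (pairBits (φ z) s)).tail), b)]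

/-- the simulated answers -/
def sim (D φ : List Bool → List Bool) (Hf : (List Bool × List Bool) × Bool → Bool)
    (z a : List Bool) : List Bool := a.foldl (sAns D φ Hf z) []

theorem sim_concat (D φ : List Bool → List Bool) (Hf : (List Bool × List Bool) × Bool → Bool)
    (z a : List Bool) (b : Bool) :
    sim D φ Hf z (a ++ [b]) = sAns D φ Hf z (sim D φ Hf z a) b := by
  simp [sim, List.foldl_append]

theorem length_sim (D φ : List Bool → List Bool) (Hf : (List Bool × List Bool) × Bool → Bool)
    (z a : List Bool) : (sim D φ Hf z a).length = a.length := by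
  induction a using List.reverseRecOn with
  | nil => rfl
  | append_singleton a b ih =>
    rw [sim_concat, sAns, List.length_append, List.length_append, ih]
    rfl

theorem poly_sim {D φ : List Bool → List Bool} {Hf : (List Bool × List Bool) × Bool → Bool}
    (hD : Poly D) (hφ : Poly φ) (hH : Poly Hf) :
    Poly (fun p : List Bool × List Bool => sim D φ Hf p.1 p.2) := by
  have hstep : Poly (fun p : (List Bool × List Bool) × List Bool × Bool =>
      sAns D φ Hf p.1.1 p.2.1 p.2.2) := by
    have h1 : Poly (fun p : (List Bool × List Bool) × List Bool × Bool => p.1.1) :=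
      Poly.fst (Poly.fst Poly.id)
    have h2 : Poly (fun p : (List Bool × List Bool) × List Bool × Bool => p.2.1) :=
      Poly.fst (Poly.snd Poly.id)
    have h3 : Poly (fun p : (List Bool × List Bool) × List Bool × Bool => p.2.2) :=
      Poly.snd (Poly.snd Poly.id)
    have h4 : Poly (fun p : (List Bool × List Bool) × List Bool × Bool =>
        (D (pairBits (φ p.1.1) p.2.1)).tail) :=
      Poly.tail (hD.comp (H622R2.poly_pairBits (hφ.comp h1) h2))
    exact Poly.append h2 (Poly.cons (hH.comp (Poly.pair (Poly.pair h1 h4) h3))
      (NPC.Poly.const []))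
  refine Poly.foldl (l := fun p : List Bool × List Bool => p.2)
    (s := fun _ => ([] : List Bool)) (F := fun p => sAns D φ Hf p.1)
    (Poly.snd Poly.id) (NPC.Poly.const _) hstep (Polynomial.C 4 * Polynomial.X +
      Polynomial.C 1) ?_
  intro a k _
  have h1 := length_sim D φ Hf a.1 (a.2.take k)
  have h2 := sz_listBool_le (sim D φ Hf a.1 (a.2.take k))
  change sz (sim D φ Hf a.1 (a.2.take k)) ≤ _
  obtain ⟨u, v⟩ := a
  have h3 := length_lt_sz v
  have h4 : (v.take k).length ≤ v.length := by
    rw [List.length_take]; exact Nat.min_le_right _ _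
  simp only [sz_pair, Polynomial.eval_add, Polynomial.eval_mul, Polynomial.eval_X,
    Polynomial.eval_C] at *
  omega

/-- the next action of the simulation -/
def simD (D φ : List Bool → List Bool) (Hf : (List Bool × List Bool) × Bool → Bool)
    (Qf : List Bool × List Bool → List Bool) (p : Polynomial ℕ) (y : List Bool) : List Bool :=
  if p.eval (φ (unpair y).1).length ≤ (unpair y).2.length then [] else
    if (D (pairBits (φ (unpair y).1) (sim D φ Hf (unpair y).1 (unpair y).2))).head? =
        some false then
      false :: Qf ((unpair y).1,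
        (D (pairBits (φ (unpair y).1) (sim D φ Hf (unpair y).1 (unpair y).2))).tail)
    else D (pairBits (φ (unpair y).1) (sim D φ Hf (unpair y).1 (unpair y).2))

theorem poly_simD {D φ : List Bool → List Bool} {Hf : (List Bool × List Bool) × Bool → Bool}
    {Qf : List Bool × List Bool → List Bool} (hD : Poly D) (hφ : Poly φ) (hH : Poly Hf)
    (hQ : Poly Qf) (p : Polynomial ℕ) : Poly (simD D φ Hf Qf p) := by
  have hx : Poly (fun y => (unpair y).1) := Poly.fst poly_unpair
  have ha : Poly (fun y => (unpair y).2) := Poly.snd poly_unpair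
  have hs : Poly (fun y => sim D φ Hf (unpair y).1 (unpair y).2) :=
    (poly_sim hD hφ hH).comp poly_unpair
  have hd : Poly (fun y => D (pairBits (φ (unpair y).1)
      (sim D φ Hf (unpair y).1 (unpair y).2))) :=
    hD.comp (H622R2.poly_pairBits (hφ.comp hx) hs)
  exact Poly.ite (Poly.decide_le (UPoly.eval (UPoly.length (hφ.comp hx)) p).toPoly
    (Poly.length ha)) (NPC.Poly.const [])
    (Poly.ite (Poly.decide_eq (Poly.head? hd) (NPC.Poly.const _))
      (Poly.cons (NPC.Poly.const false) (hQ.comp (Poly.pair hx (Poly.tail hd)))) hd)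

theorem simD_pair (D φ : List Bool → List Bool) (Hf : (List Bool × List Bool) × Bool → Bool)
    (Qf : List Bool × List Bool → List Bool) (p : Polynomial ℕ) (z a : List Bool) :
    simD D φ Hf Qf p (pairBits z a) = if p.eval (φ z).length ≤ a.length then [] else
      if (D (pairBits (φ z) (sim D φ Hf z a))).head? = some false then
        false :: Qf (z, (D (pairBits (φ z) (sim D φ Hf z a))).tail)
      else D (pairBits (φ z) (sim D φ Hf z a)) := by
  unfold simD
  rw [unpair_pairBits]

/-- the simulation -/
noncomputable def simAlg (M : Alg) {φ : List Bool → List Bool}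
    {Hf : (List Bool × List Bool) × Bool → Bool} {Qf : List Bool × List Bool → List Bool}
    (hφ : Poly φ) (hH : Poly Hf) (hQ : Poly Qf) (p : Polynomial ℕ) : Alg where
  D := simD M.D φ Hf Qf M.p
  poly := H622R2.polyTime_of_poly_list (poly_simD (H622R2.poly_of_polyTime M.poly) hφ hH hQ M.p)
  p := p

theorem sim_run (M : Alg) {φ : List Bool → List Bool}
    {Hf : (List Bool × List Bool) × Bool → Bool} {Qf : List Bool × List Bool → List Bool}
    (hφ : Poly φ) (hH : Poly Hf) (hQ : Poly Qf) (p : Polynomial ℕ) (A : Oracle)
    (θ : List Bool → Oracle) (hθ : ∀ z q, θ z q = Hf ((z, q), A (Qf (z, q))))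
    (z : List Bool) : ∀ (n : ℕ) (a : List Bool), a.length + n = M.p.eval (φ z).length →
      ∀ m > n, (simAlg M hφ hH hQ p).run A z m a =
        some ((M.run (θ z) (φ z) n (sim M.D φ Hf z a)).getD []) := by
  intro n
  induction n with
  | zero =>
    intro a ha m hm
    obtain ⟨m, rfl⟩ : ∃ m', m = m' + 1 := ⟨m - 1, by omega⟩
    have hD : (simAlg M hφ hH hQ p).D (pairBits z a) = [] := by
      change simD M.D φ Hf Qf M.p (pairBits z a) = _
      rw [simD_pair, if_pos (by omega)]
    rw [A2.run_succ, hD, if_neg (by simp)]
    rfl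
  | succ n ih =>
    intro a ha m hm
    obtain ⟨m, rfl⟩ : ∃ m', m = m' + 1 := ⟨m - 1, by omega⟩
    have hD : (simAlg M hφ hH hQ p).D (pairBits z a) =
        if (M.D (pairBits (φ z) (sim M.D φ Hf z a))).head? = some false then
          false :: Qf (z, (M.D (pairBits (φ z) (sim M.D φ Hf z a))).tail)
        else M.D (pairBits (φ z) (sim M.D φ Hf z a)) := by
      change simD M.D φ Hf Qf M.p (pairBits z a) = _
      rw [simD_pair, if_neg (by omega)]
    rw [A2.run_succ, hD, A2.run_succ]
    by_cases h1 : (M.D (pairBits (φ z) (sim M.D φ Hf z a))).head? = some false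
    · rw [if_pos h1, if_pos h1, if_pos (by simp), List.tail_cons,
        ih _ (by rw [List.length_append, List.length_singleton]; omega) m (by omega),
        sim_concat, sAns, hθ]
    · rw [if_neg h1, if_neg h1, if_neg h1]
      rfl

theorem isFP_sim (M : Alg) (A : Oracle) (θ : List Bool → Oracle) {φ : List Bool → List Bool}
    {Hf : (List Bool × List Bool) × Bool → Bool} {Qf : List Bool × List Bool → List Bool}
    (hφ : Poly φ) (hH : Poly Hf) (hQ : Poly Qf)
    (hθ : ∀ z q, θ z q = Hf ((z, q), A (Qf (z, q)))) :
    IsFP A (fun z => (M.out (θ z) (φ z)).getD []) := by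
  obtain ⟨r, hr⟩ := hφ.sz_le
  refine ⟨simAlg M hφ hH hQ (M.p.comp (r.comp (Polynomial.C 4 * Polynomial.X +
    Polynomial.C 1)) + 1), fun z => ?_⟩
  have h1 : (φ z).length ≤ (r.comp (Polynomial.C 4 * Polynomial.X +
      Polynomial.C 1)).eval z.length :=
    A2.sz_eval_le ((length_lt_sz (φ z)).le.trans (hr z))
  have h2 := eval_mono M.p h1
  refine sim_run M hφ hH hQ _ A θ hθ z (M.p.eval (φ z).length) [] (by simp) _ ?_
  change (M.p.comp (r.comp (Polynomial.C 4 * Polynomial.X + Polynomial.C 1)) + 1).eval
    z.length > _
  rw [Polynomial.eval_add, Polynomial.eval_comp, Polynomial.eval_one]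
  omega

/-! ### The tally set given by a table -/

/-- the tally set with the table `t` -/
def TbT (t : List Bool) : Set (List Bool) := {y | y = zz y.length ∧ t[y.length]? = some true}

/-- the answers of the join with a tally set -/
def Hj (p : (List Bool × List Bool) × Bool) : Bool :=
  if p.1.2.head? = some false then p.2 else
    if p.1.2.head? = some true then decide (p.1.2.tail = zz p.1.2.tail.length) &&
      decide ((unpair (unpair p.1.1).1).1[p.1.2.tail.length]? = some true) else false

theorem poly_Hj : Poly Hj := by
  have h1 : Poly (fun p : (List Bool × List Bool) × Bool => p.1.2) :=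
    Poly.snd (Poly.fst Poly.id)
  have h2 : Poly (fun p : (List Bool × List Bool) × Bool => p.2) := Poly.snd Poly.id
  have h3 : Poly (fun p : (List Bool × List Bool) × Bool => p.1.2.tail) := Poly.tail h1
  have h4 : Poly (fun p : (List Bool × List Bool) × Bool => (unpair (unpair p.1.1).1).1) :=
    Poly.fst (poly_unpair.comp (Poly.fst (poly_unpair.comp (Poly.fst (Poly.fst Poly.id)))))
  exact Poly.ite (Poly.decide_eq (Poly.head? h1) (NPC.Poly.const _)) h2
    (Poly.ite (Poly.decide_eq (Poly.head? h1) (NPC.Poly.const _))
      (Poly.and (Poly.decide_eq h3 (p_replicate (UPoly.length h3) false))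
        (Poly.decide_eq (Poly.getElem? h4 (Poly.length h3)) (NPC.Poly.const _)))
      (NPC.Poly.const _))

theorem join_Tt (R : Oracle) (z q : List Bool) :
    join R (TbT (unpair (unpair z).1).1) q = Hj ((z, q), R q.tail) := by
  rcases q with _ | ⟨b, q⟩
  · rfl
  · cases b with
    | false => simp [join, Hj]
    | true =>
      have h : join R (TbT (unpair (unpair z).1).1) (true :: q) = true ↔
          q ∈ TbT (unpair (unpair z).1).1 := by
        unfold join
        exact @decide_eq_true_iff _ (Classical.propDecidable _)
      rw [Bool.eq_iff_iff, h]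
      simp [Hj, TbT] <;>
      exact ⟨fun h => ⟨decide_eq_true h.1, decide_eq_true h.2⟩,
        fun h => ⟨of_decide_eq_true h.1, of_decide_eq_true h.2⟩⟩

/-- the instances of `C` together with a table -/
def C2 (R : Oracle) (M : Alg) (p : Polynomial ℕ) : Set (List Bool) :=
  {z | ∃ w : List Bool, w.length ≤ p.eval (unpair z).2.length ∧
    (M.out (join R (TbT (unpair z).1)) (pairBits (unpair z).2 w)).getD [] = [true]}

theorem chr_congr {A B : Set (List Bool)} {x y : List Bool} (h : x ∈ A ↔ y ∈ B) :
    chr A x = chr B y := by
  unfold chr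
  exact decide_eq_decide.2 h

theorem mem_C2 (R : Oracle) (M : Alg) (p : Polynomial ℕ) (t q : List Bool) :
    pairBits t q ∈ C2 R M p ↔ ∃ w : List Bool, w.length ≤ p.eval q.length ∧
      (M.out (join R (TbT t)) (pairBits q w)).getD [] = [true] := by
  unfold C2
  simp only [Set.mem_ofPred_eq, unpair_pairBits]

theorem isNP_C2 (R : Oracle) (M : Alg) (p : Polynomial ℕ) : IsNP R (C2 R M p) := by
  have h1 : IsFP R (fun z => (M.out (join R (TbT (unpair (unpair z).1).1))
      (pairBits (unpair (unpair z).1).2 (unpair z).2)).getD []) :=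
    isFP_sim M R (fun z => join R (TbT (unpair (unpair z).1).1))
      (φ := fun z => pairBits (unpair (unpair z).1).2 (unpair z).2) (Hf := Hj)
      (Qf := fun p => p.2.tail)
      (H622R2.poly_pairBits (Poly.snd (poly_unpair.comp (Poly.fst poly_unpair)))
        (Poly.snd poly_unpair)) poly_Hj (Poly.tail (Poly.snd Poly.id)) (join_Tt R)
  obtain ⟨b, hb⟩ := (IsFP.of_poly (A := R) (F := fun z => (unpair z).2)
    (Poly.snd poly_unpair)).length_le
  have h3 : Poly (fun t : List Bool => [decide ((unpair t).1 = [true]) &&
      decide ((unpair (unpair t).2).2.length ≤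
        p.eval (unpair (unpair (unpair t).2).1).2.length)]) := by
    have h4 : Poly (fun t : List Bool => unpair (unpair t).2) :=
      poly_unpair.comp (Poly.snd poly_unpair)
    have h5 : Poly (fun t : List Bool => (unpair (unpair (unpair t).2).1).2) :=
      Poly.snd (poly_unpair.comp (Poly.fst h4))
    exact Poly.cons (Poly.and (Poly.decide_eq (Poly.fst poly_unpair) (NPC.Poly.const [true]))
      (Poly.decide_le (Poly.length (Poly.snd h4)) (UPoly.eval (UPoly.length h5) p).toPoly))
      (NPC.Poly.const [])
  have h7 := IsFP.comp (IsFP.of_poly (A := R) h3)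
    (IsFP.pair h1 (IsFP.of_poly (A := R) (F := fun y => y) Poly.id))
  simp only [unpair_pairBits] at h7
  refine ⟨_, p.comp b, h7, fun x => ?_⟩
  unfold C2
  simp only [Set.mem_ofPred_eq, unpair_pairBits, Polynomial.eval_comp, List.cons.injEq,
    and_true, Bool.and_eq_true, decide_eq_true_eq]
  constructor
  · rintro ⟨w, hw, hV1⟩
    exact ⟨w, hw.trans (eval_mono p (hb x)), hV1, hw⟩
  · rintro ⟨w, -, hV1, hw⟩
    exact ⟨w, hw, hV1⟩

/-- the set which is asked -/
def Cp (T C : Set (List Bool)) : Set (List Bool) :=
  {v | decide (v.head? = some false) = true} ∩ {v | v.tail ∈ T} ∪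
    {v | decide (v.head? = some true) = true} ∩ {v | v.tail ∈ C}

theorem isNP_Cp {R : Oracle} {T C : Set (List Bool)} (hT : IsNP R T) (hC : IsNP R C) :
    IsNP R (Cp T C) := by
  have t1 : Poly (fun v : List Bool => v.tail) := Poly.tail Poly.id
  have h0 : IsNP R {v | decide (v.head? = some false) = true} :=
    Pool.Agent.H673R2.OneTT.isNP_of_poly R (Poly.decide_eq (Poly.head? Poly.id)
      (NPC.Poly.const _))
  have h1 : IsNP R {v | decide (v.head? = some true) = true} :=
    Pool.Agent.H673R2.OneTT.isNP_of_poly R (Poly.decide_eq (Poly.head? Poly.id)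
      (NPC.Poly.const _))
  have g1 : IsNP R {v | v.tail ∈ T} :=
    IsNP.red ⟨fun v => v.tail, IsFP.of_poly t1, fun _ => Iff.rfl⟩ hT
  have g2 : IsNP R {v | v.tail ∈ C} :=
    IsNP.red ⟨fun v => v.tail, IsFP.of_poly t1, fun _ => Iff.rfl⟩ hC
  exact IsNP.union (IsNP.inter h0 g1) (IsNP.inter h1 g2)

theorem chr_Cp_false (T C : Set (List Bool)) (x : List Bool) :
    chr (Cp T C) (false :: x) = chr T x := by
  unfold chr
  rw [decide_eq_decide]
  simp [Cp]

theorem chr_Cp_true (T C : Set (List Bool)) (x : List Bool) :
    chr (Cp T C) (true :: x) = chr C x := by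
  unfold chr
  rw [decide_eq_decide]
  simp [Cp]

/-- the table -/
noncomputable def tab (X : Oracle) (τ : Polynomial ℕ) (x : List Bool) : List Bool :=
  (List.range (τ.eval x.length)).map (fun i => X (false :: zz i))

theorem isFP_tab (X : Oracle) (τ : Polynomial ℕ) : IsFP X (tab X τ) := by
  have hn : UPoly (fun x : List Bool => τ.eval x.length) :=
    UPoly.eval (UPoly.length Poly.id) τ
  have hQ : Poly (fun x : List Bool =>
      (List.range (τ.eval x.length)).map (fun i => false :: zz i)) := by
    have h1 : Poly (fun p : List Bool × ℕ => p.1) := Poly.fst Poly.id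
    have h2 : Poly (fun p : List Bool × ℕ => p.2) := Poly.snd Poly.id
    refine (NPC.Poly.map (F := fun (x : List Bool) (i : ℕ) =>
      false :: zz (min i (τ.eval x.length))) hn.range
      (Poly.cons (NPC.Poly.const false) (p_replicate ?_ false))).congr fun x => ?_
    · exact UPoly.of_le (Poly.min h2 (hn.toPoly.comp h1)) (hn.comp h1)
        fun a => min_le_right _ _
    · apply List.map_congr_left
      intro i hi
      rw [List.mem_range] at hi
      rw [min_eq_left hi.le]
  have h := IsFP.tt (A := X) (H := fun p => p.2) hQ (Poly.snd Poly.id)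
  simp only [List.map_map] at h
  exact h

theorem tab_getElem (X : Oracle) (τ : Polynomial ℕ) (x : List Bool) {i : ℕ}
    (hi : i < τ.eval x.length) : (tab X τ x)[i]? = some (X (false :: zz i)) := by
  unfold tab
  rw [List.getElem?_map, List.getElem?_range hi]
  rfl

end LowT

open LowT in
theorem low_tally {R : Oracle} {T C L : Set (List Bool)} (hT : IsNP R T)
    (hT' : ∀ x ∈ T, x = zz x.length) (hC : IsNP (join R T) C) (hL : IsP (chr C) L) :
    ∃ C', IsNP R C' ∧ IsP (chr C') L := by
  obtain ⟨F, ⟨N, hN⟩, hF⟩ := hL
  obtain ⟨V, p, ⟨M, hM⟩, hV⟩ := hC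
  obtain ⟨bN, hbN⟩ := N.out_local
  obtain ⟨bM, hbM⟩ := M.out_local
  set D : Set (List Bool) := Cp T (C2 R M p) with hD
  set τ : Polynomial ℕ := bM.comp (2 * bN + 1 + p.comp bN) + 1 with hτ
  refine ⟨D, isNP_Cp hT (isNP_C2 R M p), F, ?_, hF⟩
  -- with the right table the questions about `C2` are questions about `C`
  have key : ∀ x q : List Bool, q.length ≤ bN.eval x.length →
      chr D (true :: pairBits (tab (chr D) τ x) q) = chr C q := by
    intro x q hq
    rw [hD, chr_Cp_true]
    apply chr_congr
    rw [hV, mem_C2]
    refine exists_congr fun w => and_congr_right fun hw => ?_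
    have h1 : M.out (join R (TbT (tab (chr D) τ x))) (pairBits q w) =
        M.out (join R T) (pairBits q w) := by
      obtain ⟨Q, -, h2, h3⟩ := hbM (join R T) (pairBits q w)
      apply h3
      intro y hy
      rcases y with _ | ⟨b, y⟩
      · rfl
      · cases b with
        | false => rfl
        | true =>
          have h4 : y.length < τ.eval x.length := by
            have h5 := h2 _ hy
            rw [List.length_cons] at h5
            have h6 : (pairBits q w).length ≤
                (2 * bN + 1 + p.comp bN).eval x.length := by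
              rw [length_pairBits]
              simp only [Polynomial.eval_add, Polynomial.eval_mul, Polynomial.eval_ofNat,
                Polynomial.eval_one, Polynomial.eval_comp]
              have h7 := eval_mono p hq
              omega
            have h8 := eval_mono bM h6
            rw [hτ, Polynomial.eval_add, Polynomial.eval_comp, Polynomial.eval_one]
            omega
          unfold join
          simp only
          rw [decide_eq_decide]
          unfold TbT
          simp only [Set.mem_ofPred_eq]
          rw [tab_getElem _ _ _ h4, hD, chr_Cp_false]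
          unfold chr
          simp only [Option.some.injEq, decide_eq_true_eq]
          constructor
          · rintro ⟨h9, h10⟩
            rw [h9]; exact h10
          · intro h9
            have h10 := hT' y h9
            refine ⟨h10, ?_⟩
            rw [← h10]; exact h9
    rw [h1, hM]
    rfl
  have hout : ∀ x, N.out (fun q => chr D (true :: pairBits (tab (chr D) τ x) q)) x =
      some (F x) := by
    intro x
    rw [← hN x]
    obtain ⟨Q, -, h2, h3⟩ := hbN (chr C) x
    exact h3 _ fun q hq => key x q (h2 q hq)
  have hG : IsFP (chr D) (fun z => (N.out (fun q => chr D (true :: pairBits (unpair z).1 q))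
      (unpair z).2).getD []) :=
    isFP_sim N (chr D) (fun z q => chr D (true :: pairBits (unpair z).1 q))
      (φ := fun z => (unpair z).2) (Hf := fun p => p.2)
      (Qf := fun p => true :: pairBits (unpair p.1).1 p.2) (Poly.snd poly_unpair)
      (Poly.snd Poly.id) (Poly.cons (NPC.Poly.const true)
        (H622R2.poly_pairBits (Poly.fst (poly_unpair.comp (Poly.fst Poly.id)))
          (Poly.snd Poly.id))) (fun _ _ => rfl)
  have h7 := IsFP.comp hG (IsFP.pair (isFP_tab (chr D) τ)
    (IsFP.of_poly (A := chr D) (F := fun y => y) Poly.id))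
  simp only [unpair_pairBits, hout, Option.getD_some] at h7
  exact h7

end Pool.Agent.H579R3.RH
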