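import Pool.Agent.H579R3.RH.Base

/-! Stubs. Never import this file in a finished file. -/

namespace Pool.Agent.H579R3.RH

open MeasureTheory Pool.Agent.NPC Pool.Agent.H628R3.RO Pool.Agent.H673R2.OneOne
open Pool.Agent.H673R2.OneTT (KA Hs zz bK)

/-! ### Task R1, file `R1.lean`: an oracle in `P` relative to `R` can be replaced by `R`. -/

theorem isFP_subst {R : Oracle} {D : Set (List Bool)} {F : List Bool → List Bool}
    (hF : IsFP (chr D) F) (hD : IsP R D) : IsFP R F := by sorry

/-! ### Task R2, file `R2.lean`: reductions to the complete set with long values. -/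

theorem hard_KA_poly {R : Oracle} {L : Set (List Bool)} (hL : IsNP R L) (n0 : ℕ) :
    ∃ F : List Bool → List Bool, Poly F ∧ (∀ x, n0 ≤ (F x).length) ∧
      ∀ x, x ∈ L ↔ F x ∈ KA R := by sorry

/-! ### Task R3, file `R3.lean`: from `NP(NP(R))` to `NP(R ⊕ B)`. -/

theorem isNP_join {R : Oracle} {n0 : ℕ}
    (hR : ∀ y : List Bool, n0 ≤ y.length → ∃ u, Key R y u)
    {C L : Set (List Bool)} {F0 : List Bool → List Bool} (hF0 : Poly F0)
    (h0 : ∀ q, n0 ≤ (F0 q).length) (hC : ∀ q, q ∈ C ↔ F0 q ∈ KA R)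
    (hL : IsNP (chr C) L) : IsNP (join R (BB R)) L := by sorry

/-! ### Task R4, file `R4.lean`: keys exist. -/

theorem ae_keys : ∀ᵐ R ∂randomOracle, ∃ n0 : ℕ, ∀ y : List Bool, n0 ≤ y.length →
    ∃ u, Key R y u := by sorry

/-! ### Task R5, file `R5.lean`: the tally set is not in `coNP`. -/

theorem ae_coNP : ∀ᵐ R ∂randomOracle, ¬ IsNP R (TT R)ᶜ := by sorry

/-! ### Task R6, file `R6.lean`: tally sets in `NP` are low for `Δ_2`. -/

theorem low_tally {R : Oracle} {T C L : Set (List Bool)} (hT : IsNP R T)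
    (hT' : ∀ x ∈ T, x = zz x.length) (hC : IsNP (join R T) C) (hL : IsP (chr C) L) :
    ∃ C', IsNP R C' ∧ IsP (chr C') L := by sorry

/-! ### Task R7, file `R7.lean`: `B` is in `NP`, and not hard (helper579). -/

theorem isNP_BB (R : Oracle) : IsNP R (BB R) := by sorry

theorem isNP_TT (R : Oracle) : IsNP R (TT R) := by sorry

theorem ae_sep : ∀ᵐ R ∂randomOracle, ¬ IsP (join R (BB R)) (TT R) := by sorry

end Pool.Agent.H579R3.RH
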